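import Pool.Agent.Helper23.WC.Spec

set_option autoImplicit false

namespace Pool.Agent.Helper23.WL

open MvPolynomial Pool.Agent.W600.Alg Pool.Agent.Helper23.CC Pool.Agent.Helper23.WC

theorem fina : St_FINA := by
  classical
  intro K _ _ _ n r s e H hW hah
  obtain ⟨P, Q, i, j, c, hPi, hPj, hQi, hQj, hH⟩ := hW
  obtain ⟨t, ht⟩ : ∃ t : Finset K, t = (Finset.univ.biUnion fun a => cf (H a)) ∪
      (Finset.univ.image P ∪ (Finset.univ.image Q ∪
        Finset.univ.biUnion fun i : Fin r => (Finset.range (e i + 1)).image (c i))) := ⟨_, rfl⟩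
  have m1 : ∀ a, (cf (H a) : Set K) ⊆ Subring.closure (t : Set K) := by
    intro a x hx
    refine Subring.subset_closure ?_
    rw [ht]
    exact Finset.mem_union_left _ (Finset.mem_biUnion.2 ⟨a, Finset.mem_univ _, hx⟩)
  have m2 : ∀ l, P l ∈ Subring.closure (t : Set K) := by
    intro l
    refine Subring.subset_closure ?_
    rw [ht]
    exact Finset.mem_union_right _ (Finset.mem_union_left _
      (Finset.mem_image_of_mem _ (Finset.mem_univ _)))
  have m3 : ∀ l, Q l ∈ Subring.closure (t : Set K) := by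
    intro l
    refine Subring.subset_closure ?_
    rw [ht]
    exact Finset.mem_union_right _ (Finset.mem_union_right _ (Finset.mem_union_left _
      (Finset.mem_image_of_mem _ (Finset.mem_univ _))))
  have m4 : ∀ i l, l ∈ Finset.range (e i + 1) → c i l ∈ Subring.closure (t : Set K) := by
    intro i l hl
    refine Subring.subset_closure ?_
    rw [ht]
    exact Finset.mem_union_right _ (Finset.mem_union_right _ (Finset.mem_union_right _
      (Finset.mem_biUnion.2 ⟨i, Finset.mem_univ _, Finset.mem_image_of_mem _ hl⟩)))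
  have mn : ∀ m : ℕ, (m : K) ∈ Subring.closure (t : Set K) := fun m => natCast_mem _ m
  obtain ⟨Z, hZ⟩ := hah t m1
  let pt : ℕ → (Fin (n + 1) → K) × (Fin r → K) := fun m =>
    (fun l => (m : K) * P l + 1 * Q l, fun i => bf (e i) (c i) (m : K) 1)
  have hj : ∀ m, (pt m).1 j = 1 := by
    intro m
    show (m : K) * P j + 1 * Q j = 1
    rw [hPj, hQj]
    ring
  have hi : ∀ m : ℕ, (pt m).1 i = m := by
    intro m
    show (m : K) * P i + 1 * Q i = m
    rw [hPi, hQi]
    ring
  have hpt : ∀ m, pt m ∈ APtsW (Subring.closure (t : Set K)) H := by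
    intro m
    have hmem : ∀ l, (pt m).1 l ∈ Subring.closure (t : Set K) := fun l =>
      add_mem (mul_mem (mn m) (m2 l)) (mul_mem (one_mem _) (m3 l))
    refine ⟨⟨fun h0 => ?_, fun a => ?_⟩, ⟨hmem, fun l => if l = j then 1 else 0, fun l => ?_, ?_⟩,
      fun i' => ?_⟩
    · have h1 := hj m
      rw [h0] at h1
      exact zero_ne_one h1
    · have h1 := hH a (m : K) 1
      rw [aeval_eq_eval] at h1
      exact h1
    · show (if l = j then (1 : K) else 0) ∈ Subring.closure (t : Set K)
      split_ifs
      · exact one_mem _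
      · exact zero_mem _
    · simp only [ite_mul, one_mul, zero_mul, Finset.sum_ite_eq', Finset.mem_univ, if_true]
      exact hj m
    · show bf (e i') (c i') (m : K) 1 ∈ _
      unfold bf
      exact sum_mem fun l hl => mul_mem (mul_mem (m4 i' l hl) (pow_mem (mn m) _))
        (pow_mem (one_mem _) _)
  choose q hqZ hq using fun m => hZ _ (hpt m)
  obtain ⟨m, m', hmm, hqq⟩ := Finite.exists_ne_map_eq_of_infinite
    (fun m : ℕ => (⟨q m, hqZ m⟩ : Z))
  have hqq' : q m = q m' := congrArg Subtype.val hqq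
  obtain ⟨a, -, ha, -⟩ := hq m
  obtain ⟨a', -, ha', -⟩ := hq m'
  rw [← hqq'] at ha'
  have e1 := ha j
  have e2 := ha' j
  have e3 := ha i
  have e4 := ha' i
  rw [hj] at e1 e2
  rw [hi] at e3 e4
  have h0 : (q m).1 j ≠ 0 := by
    intro h
    rw [h, mul_zero] at e1
    exact one_ne_zero e1
  have h1 : a = a' := mul_right_cancel₀ h0 (e1.symm.trans e2)
  apply hmm
  have h2 : (m : K) = m' := by rw [e3, e4, h1]
  exact_mod_cast h2

end Pool.Agent.Helper23.WL
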